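import Pool.Agent.TH686.SP.Poly

set_option autoImplicit false

/-! Decoding a pair of linear orders in a graph with a marked vertex. -/

namespace Pool.Agent.TH195.SG

section

variable {M : Type} (P : M → M → Prop) (R : M)

/-- the remaining vertices -/
def isB (x : M) : Prop := x ≠ R ∧ ¬ P x R

/-- the vertices which code elements -/
def isI (x : M) : Prop := x ≠ R ∧ P x R ∧ ∃ b, isB P R b ∧ P b x

/-- the private neighbours of the first kind -/
def isA (x : M) : Prop := x ≠ R ∧ P x R ∧ ¬ ∃ b, isB P R b ∧ P b x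

/-- inclusion of the neighbourhoods in `D` -/
def nle (D : M → Prop) (x y : M) : Prop := ∀ a, D a → P a x → P a y

/-- `x` is the first vertex whose neighbourhood contains `a` -/
def own (D : M → Prop) (a x : M) : Prop := P a x ∧ ∀ y, isI P R y → P a y → nle P D x y

/-- the neighbourhoods in `D` form a chain, and each step adds one vertex -/
structure Chain (D : M → Prop) : Prop where
  tot : ∀ x y, isI P R x → isI P R y → nle P D x y ∨ nle P D y x
  anti : ∀ x y, isI P R x → isI P R y → nle P D x y → nle P D y x → x = y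
  ex : ∀ a, D a → ∃ x, isI P R x ∧ own P R D a x
  own : ∀ x, isI P R x → ∃! a, D a ∧ own P R D a x

/-- the marked graph codes two linear orders -/
def Shape : Prop := Chain P R (isA P R) ∧ Chain P R (isB P R)

variable {P R}

theorem card_chain {D : M → Prop} (h : Chain P R D) :
    Nat.card {a // D a} = Nat.card {x // isI P R x} := by
  choose f hf1 hf2 using h.own
  symm
  refine Nat.card_eq_of_bijective (fun x : {x // isI P R x} => (⟨f x.1 x.2, (hf1 x.1 x.2).1⟩ :
    {a // D a})) ⟨?_, ?_⟩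
  · rintro ⟨x, hx⟩ ⟨y, hy⟩ hxy
    have e : f x hx = f y hy := congrArg Subtype.val hxy
    have h1 := (hf1 x hx).2
    have h2 := (hf1 y hy).2
    rw [e] at h1
    exact Subtype.ext (h.anti x y hx hy (h1.2 y hy h2.1) (h2.2 x hx h1.1))
  · rintro ⟨a, ha⟩
    obtain ⟨x, hx, hox⟩ := h.ex a ha
    exact ⟨⟨x, hx⟩, Subtype.ext (hf2 x hx a ⟨ha, hox⟩).symm⟩

theorem card_shape [Finite M] (h : Shape P R) :
    Nat.card M = 3 * Nat.card {x // isI P R x} + 1 := by
  have e : Nat.card M = Nat.card (Unit ⊕ {x // isI P R x} ⊕ {x // isA P R x} ⊕ {x // isB P R x}) := by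
    symm
    refine Nat.card_eq_of_bijective (Sum.elim (fun _ => R) (Sum.elim Subtype.val
      (Sum.elim Subtype.val Subtype.val))) ⟨?_, ?_⟩
    · rintro (u | ⟨x, hx⟩ | ⟨x, hx⟩ | ⟨x, hx⟩) (v | ⟨y, hy⟩ | ⟨y, hy⟩ | ⟨y, hy⟩) hxy <;>
        simp only [Sum.elim_inl, Sum.elim_inr] at hxy
      · rfl
      · exact absurd hxy.symm hy.1
      · exact absurd hxy.symm hy.1
      · exact absurd hxy.symm hy.1
      · exact absurd hxy hx.1
      · subst hxy; rfl
      · subst hxy; exact absurd hx.2.2 hy.2.2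
      · subst hxy; exact absurd hx.2.1 hy.2
      · exact absurd hxy hx.1
      · subst hxy; exact absurd hy.2.2 hx.2.2
      · subst hxy; rfl
      · subst hxy; exact absurd hx.2.1 hy.2
      · exact absurd hxy hx.1
      · subst hxy; exact absurd hy.2.1 hx.2
      · subst hxy; exact absurd hy.2.1 hx.2
      · subst hxy; rfl
    · intro x
      by_cases h0 : x = R
      · exact ⟨Sum.inl (), h0.symm⟩
      by_cases h1 : P x R
      · by_cases h2 : ∃ b, isB P R b ∧ P b x
        · exact ⟨Sum.inr (Sum.inl ⟨x, h0, h1, h2⟩), rfl⟩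
        · exact ⟨Sum.inr (Sum.inr (Sum.inl ⟨x, h0, h1, h2⟩)), rfl⟩
      · exact ⟨Sum.inr (Sum.inr (Sum.inr ⟨x, h0, h1⟩)), rfl⟩
  rw [e, Nat.card_sum, Nat.card_sum, Nat.card_sum, card_chain h.1, card_chain h.2,
    Nat.card_unique]
  ring

/-- the coded linear order -/
def olt (P : M → M → Prop) (D : M → Prop) (x y : M) : Prop := ¬ nle P D y x

theorem sto {D : M → Prop} (h : Chain P R D) :
    IsStrictTotalOrder {x // isI P R x} (fun x y => olt P D x.1 y.1) := by
  have ht : ∀ x y z : {x // isI P R x}, olt P D x.1 y.1 → olt P D y.1 z.1 → olt P D x.1 z.1 := by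
    intro x y z h1 h2 h3
    have h4 : nle P D x.1 y.1 := (h.tot x.1 y.1 x.2 y.2).resolve_right h1
    exact h2 fun a ha hb => h4 a ha (h3 a ha hb)
  have hi : ∀ x : {x // isI P R x}, ¬ olt P D x.1 x.1 := fun x h1 => h1 fun a _ hb => hb
  have htr : ∀ x y : {x // isI P R x}, ¬ olt P D x.1 y.1 → ¬ olt P D y.1 x.1 → x = y := by
    intro x y h1 h2
    exact Subtype.ext (h.anti x.1 y.1 x.2 y.2 (not_not.1 h2) (not_not.1 h1))
  exact { trichotomous := htr, irrefl := hi, trans := ht }

end

end Pool.Agent.TH195.SG
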