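import Pool.Agent.TH195.SG.Fd

set_option autoImplicit false

/-! Coding two linear orders in a split interval graph. -/

namespace Pool.Agent.TH195.SG

open FirstOrder FirstOrder.Language Pool.Agent.TH686.SP

/-- Intersection graphs of closed intervals of the real line. -/
def IsIntervalGraph {M : Type} (r : M → M → Prop) : Prop :=
  ∃ l u : M → ℝ, (∀ x, l x ≤ u x) ∧ ∀ x y, r x y ↔ (x ≠ y ∧ l x ≤ u y ∧ l y ≤ u x)

/-- Split graphs: the vertices are the disjoint union of a clique and an independent set. -/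
def IsSplitGraph {M : Type} (r : M → M → Prop) : Prop :=
  ∃ K : M → Prop, (∀ x y, K x → K y → x ≠ y → r x y) ∧ ∀ x y, ¬ K x → ¬ K y → ¬ r x y

/-- a finite strict total order is given by ranks -/
theorem exists_rank {X : Type} [Finite X] (a : X → X → Prop) (h : IsStrictTotalOrder X a) :
    ∃ f : X → ℕ, (∀ x, 1 ≤ f x) ∧ ∀ x y, a x y ↔ f x < f y := by
  have key : ∀ x y, a x y → ({z | a z x}.ncard + 1) < ({z | a z y}.ncard + 1) := by
    intro x y hxy
    have : {z | a z x} ⊂ {z | a z y} := by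
      refine ⟨fun z hz => h.trans _ _ _ hz hxy, fun hs => ?_⟩
      exact h.irrefl x (hs hxy)
    exact Nat.succ_lt_succ (Set.ncard_lt_ncard this (Set.toFinite _))
  refine ⟨fun x => {z | a z x}.ncard + 1, fun x => Nat.le_add_left _ _, fun x y => ⟨key x y, ?_⟩⟩
  intro hlt
  change {z | a z x}.ncard + 1 < {z | a z y}.ncard + 1 at hlt
  by_contra h1
  by_cases h2 : a y x
  · have := key y x h2
    omega
  · have := h.trichotomous x y h1 h2
    subst this
    exact lt_irrefl _ hlt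

section

variable {M X : Type} {P : M → M → Prop} {R : M} {D : M → Prop} {d e : X → M} {f : X → ℕ}

theorem nle_iff (hD : ∀ z, D z ↔ ∃ x, z = d x) (hE : ∀ x y, P (d x) (e y) ↔ f x ≤ f y) (x y : X) :
    nle P D (e x) (e y) ↔ f x ≤ f y := by
  constructor
  · intro h
    exact (hE x y).1 (h (d x) ((hD _).2 ⟨x, rfl⟩) ((hE x x).2 le_rfl))
  · intro h z hz hzx
    obtain ⟨w, rfl⟩ := (hD z).1 hz
    exact (hE w y).2 (((hE w x).1 hzx).trans h)

theorem chain_of (hf : Function.Injective f) (hD : ∀ z, D z ↔ ∃ x, z = d x)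
    (hI : ∀ z, isI P R z ↔ ∃ x, z = e x) (hE : ∀ x y, P (d x) (e y) ↔ f x ≤ f y) :
    Chain P R D := by
  have hn := nle_iff hD hE
  refine ⟨?_, ?_, ?_, ?_⟩
  · intro x y hx hy
    obtain ⟨x, rfl⟩ := (hI x).1 hx
    obtain ⟨y, rfl⟩ := (hI y).1 hy
    rw [hn, hn]
    exact le_total _ _
  · intro x y hx hy
    obtain ⟨x, rfl⟩ := (hI x).1 hx
    obtain ⟨y, rfl⟩ := (hI y).1 hy
    rw [hn, hn]
    intro h1 h2
    rw [hf (le_antisymm h1 h2)]
  · intro a ha
    obtain ⟨x, rfl⟩ := (hD a).1 ha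
    refine ⟨e x, (hI _).2 ⟨x, rfl⟩, (hE x x).2 le_rfl, fun y hy hxy => ?_⟩
    obtain ⟨y, rfl⟩ := (hI y).1 hy
    exact (hn x y).2 ((hE x y).1 hxy)
  · intro x hx
    obtain ⟨x, rfl⟩ := (hI x).1 hx
    refine ⟨d x, ⟨(hD _).2 ⟨x, rfl⟩, (hE x x).2 le_rfl, fun y hy hxy => ?_⟩, ?_⟩
    · obtain ⟨y, rfl⟩ := (hI y).1 hy
      exact (hn x y).2 ((hE x y).1 hxy)
    · rintro a ⟨ha, h1, h2⟩
      obtain ⟨y, rfl⟩ := (hD a).1 ha
      have h3 := (hE y x).1 h1
      have h4 := (hn x y).1 (h2 (e y) ((hI _).2 ⟨y, rfl⟩) ((hE y y).2 le_rfl))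
      rw [hf (le_antisymm h3 h4)]

end

section

variable (X : Type) (p q : X → ℕ) (N : ℕ)

/-- the vertices: the mark, the elements, and their private neighbours -/
abbrev V : Type := Unit ⊕ X ⊕ X ⊕ X

/-- left endpoints -/
def lo : V X → ℤ := Sum.elim (fun _ => 1) (Sum.elim (fun x => -(q x : ℤ))
  (Sum.elim (fun x => (p x : ℤ)) (fun x => -(q x : ℤ))))

/-- right endpoints -/
def hi : V X → ℤ := Sum.elim (fun _ => (N : ℤ) + 1) (Sum.elim (fun x => (p x : ℤ))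
  (Sum.elim (fun x => (p x : ℤ)) (fun x => -(q x : ℤ))))

/-- the graph -/
def Ad (z w : V X) : Prop := z ≠ w ∧ lo X p q z ≤ hi X p q N w ∧ lo X p q w ≤ hi X p q N z

/-- the mark -/
abbrev vR : V X := Sum.inl ()

/-- the elements -/
abbrev vI (x : X) : V X := Sum.inr (Sum.inl x)

/-- the neighbours of the first kind -/
abbrev vA (x : X) : V X := Sum.inr (Sum.inr (Sum.inl x))

/-- the neighbours of the second kind -/
abbrev vB (x : X) : V X := Sum.inr (Sum.inr (Sum.inr x))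

variable {X p q N}

theorem ad_IR (hp : ∀ x, 1 ≤ p x) (x : X) : Ad X p q N (vI X x) (vR X) := by
  have := hp x
  refine ⟨by simp, ?_, ?_⟩ <;> simp only [lo, hi, Sum.elim_inl, Sum.elim_inr] <;> omega

theorem ad_AR (hp : ∀ x, 1 ≤ p x) (hN : ∀ x, p x ≤ N) (x : X) : Ad X p q N (vA X x) (vR X) := by
  have := hp x
  have := hN x
  refine ⟨by simp, ?_, ?_⟩ <;> simp only [lo, hi, Sum.elim_inl, Sum.elim_inr] <;> omega

theorem ad_BR (x : X) : ¬ Ad X p q N (vB X x) (vR X) := by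
  rintro ⟨-, -, h⟩
  simp only [lo, hi, Sum.elim_inl, Sum.elim_inr] at h
  omega

theorem ad_BI (hp : ∀ x, 1 ≤ p x) (x y : X) : Ad X p q N (vB X x) (vI X y) ↔ q x ≤ q y := by
  have := hp y
  simp only [Ad, lo, hi, Sum.elim_inl, Sum.elim_inr, ne_eq, reduceCtorEq, not_false_eq_true,
    true_and, Sum.inr.injEq]
  omega

theorem ad_AI (x y : X) : Ad X p q N (vA X x) (vI X y) ↔ p x ≤ p y := by
  simp only [Ad, lo, hi, Sum.elim_inl, Sum.elim_inr, ne_eq, reduceCtorEq, not_false_eq_true,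
    true_and, Sum.inr.injEq]
  omega

theorem ad_BA (hp : ∀ x, 1 ≤ p x) (x y : X) : ¬ Ad X p q N (vB X x) (vA X y) := by
  rintro ⟨-, -, h⟩
  have := hp y
  simp only [lo, hi, Sum.elim_inl, Sum.elim_inr] at h
  omega

theorem c_B (hp : ∀ x, 1 ≤ p x) (hN : ∀ x, p x ≤ N) (z : V X) :
    isB (Ad X p q N) (vR X) z ↔ ∃ x, z = vB X x := by
  rcases z with ⟨⟨⟩⟩ | x | x | x
  · refine ⟨fun h => absurd rfl h.1, fun ⟨x, h⟩ => by simp at h⟩
  · refine ⟨fun h => absurd (ad_IR hp x) h.2, fun ⟨x, h⟩ => by simp at h⟩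
  · refine ⟨fun h => absurd (ad_AR hp hN x) h.2, fun ⟨x, h⟩ => by simp at h⟩
  · exact ⟨fun _ => ⟨x, rfl⟩, fun _ => ⟨by simp, ad_BR x⟩⟩

theorem c_I (hp : ∀ x, 1 ≤ p x) (hN : ∀ x, p x ≤ N) (z : V X) :
    isI (Ad X p q N) (vR X) z ↔ ∃ x, z = vI X x := by
  rcases z with ⟨⟨⟩⟩ | x | x | x
  · refine ⟨fun h => absurd rfl h.1, fun ⟨x, h⟩ => by simp at h⟩
  · exact ⟨fun _ => ⟨x, rfl⟩, fun _ => ⟨by simp, ad_IR hp x, vB X x, (c_B hp hN _).2 ⟨x, rfl⟩,
      (ad_BI hp x x).2 le_rfl⟩⟩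
  · refine ⟨fun h => ?_, fun ⟨x, h⟩ => by simp at h⟩
    obtain ⟨-, -, b, hb, hb2⟩ := h
    obtain ⟨y, rfl⟩ := (c_B hp hN b).1 hb
    exact absurd hb2 (ad_BA hp y x)
  · refine ⟨fun h => absurd h.2.1 (ad_BR x), fun ⟨x, h⟩ => by simp at h⟩

theorem c_A (hp : ∀ x, 1 ≤ p x) (hN : ∀ x, p x ≤ N) (z : V X) :
    isA (Ad X p q N) (vR X) z ↔ ∃ x, z = vA X x := by
  rcases z with ⟨⟨⟩⟩ | x | x | x
  · refine ⟨fun h => absurd rfl h.1, fun ⟨x, h⟩ => by simp at h⟩
  · refine ⟨fun h => ?_, fun ⟨x, h⟩ => by simp at h⟩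
    exact absurd ((c_I hp hN _).2 ⟨x, rfl⟩).2.2 h.2.2
  · refine ⟨fun _ => ⟨x, rfl⟩, fun _ => ⟨by simp, ad_AR hp hN x, ?_⟩⟩
    rintro ⟨b, hb, hb2⟩
    obtain ⟨y, rfl⟩ := (c_B hp hN b).1 hb
    exact ad_BA hp y x hb2
  · refine ⟨fun h => absurd h.2.1 (ad_BR x), fun ⟨x, h⟩ => by simp at h⟩

theorem ad_interval : IsIntervalGraph (Ad X p q N) ∨ ∃ z : V X, ¬ lo X p q z ≤ hi X p q N z := by
  by_cases h : ∀ z, lo X p q z ≤ hi X p q N z
  · refine Or.inl ⟨fun z => (lo X p q z : ℝ), fun z => (hi X p q N z : ℝ), fun z => ?_, ?_⟩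
    · exact Int.cast_le.2 (h z)
    · intro z w
      unfold Ad
      constructor
      · rintro ⟨h1, h2, h3⟩
        exact ⟨h1, Int.cast_le.2 h2, Int.cast_le.2 h3⟩
      · rintro ⟨h1, h2, h3⟩
        exact ⟨h1, Int.cast_le.1 h2, Int.cast_le.1 h3⟩
  · push Not at h
    obtain ⟨z, hz⟩ := h
    exact Or.inr ⟨z, by omega⟩

theorem ad_interval' : IsIntervalGraph (Ad X p q N) := by
  rcases ad_interval (X := X) (p := p) (q := q) (N := N) with h | ⟨z, hz⟩
  · exact h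
  · exfalso
    apply hz
    rcases z with ⟨⟨⟩⟩ | x | x | x <;> simp only [lo, hi, Sum.elim_inl, Sum.elim_inr] <;> omega

theorem ad_split (hp : ∀ x, 1 ≤ p x) (hpi : Function.Injective p)
    (hqi : Function.Injective q) : IsSplitGraph (Ad X p q N) := by
  refine ⟨Sum.elim (fun _ => True) (Sum.elim (fun _ => True) (fun _ => False)), ?_, ?_⟩
  · rintro (⟨⟨⟩⟩ | x | x) (⟨⟨⟩⟩ | y | y) hx hy hxy
    · exact absurd rfl hxy
    · have := hp y
      refine ⟨hxy, ?_, ?_⟩ <;> simp only [lo, hi, Sum.elim_inl, Sum.elim_inr] <;> omega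
    · exact absurd hy (by simp)
    · exact ad_IR hp x
    · have := hp x
      have := hp y
      refine ⟨hxy, ?_, ?_⟩ <;> simp only [lo, hi, Sum.elim_inl, Sum.elim_inr] <;> omega
    · exact absurd hy (by simp)
    · exact absurd hx (by simp)
    · exact absurd hx (by simp)
    · exact absurd hx (by simp)
  · rintro (⟨⟨⟩⟩ | x | x | x) (⟨⟨⟩⟩ | y | y | y) hx hy <;>
      simp only [Sum.elim_inl, Sum.elim_inr, not_true, not_false_eq_true] at hx hy
    · rintro ⟨h1, h2, h3⟩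
      simp only [lo, hi, Sum.elim_inl, Sum.elim_inr] at h2 h3
      exact h1 (by rw [hpi (by omega : p x = p y)])
    · rintro ⟨h1, h2, h3⟩
      have := hp x
      simp only [lo, hi, Sum.elim_inl, Sum.elim_inr] at h2 h3
      omega
    · rintro ⟨h1, h2, h3⟩
      have := hp y
      simp only [lo, hi, Sum.elim_inl, Sum.elim_inr] at h2 h3
      omega
    · rintro ⟨h1, h2, h3⟩
      simp only [lo, hi, Sum.elim_inl, Sum.elim_inr] at h2 h3
      exact h1 (by rw [hqi (by omega : q x = q y)])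

end

/-- **Coding.** -/
theorem enc (X : Type) [Finite X] (T0 : LP.Structure X) (h : Dim2 (rl X T0)) :
    ∃ (M : Type) (T : LP.Structure M) (r : M) (e : X → M), Nat.card M = 3 * Nat.card X + 1 ∧
      IsIntervalGraph (rl M T) ∧ IsSplitGraph (rl M T) ∧ Function.Injective e ∧
      (∀ x, isI (rl M T) r x ↔ ∃ y, e y = x) ∧
      (∀ x y, rl X T0 x y ↔ dpo M T r (e x) (e y)) ∧ Shape (rl M T) r := by
  obtain ⟨a, b, ha, hb, hab⟩ := h
  obtain ⟨p, hp, hpa⟩ := exists_rank a ha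
  obtain ⟨q, -, hqb⟩ := exists_rank b hb
  have inj : ∀ (c : X → X → Prop) (f : X → ℕ), IsStrictTotalOrder X c →
      (∀ x y, c x y ↔ f x < f y) → Function.Injective f := by
    intro c f hc hf x y hxy
    exact hc.trichotomous x y (fun h => by have := (hf _ _).1 h; omega)
      (fun h => by have := (hf _ _).1 h; omega)
  have hpi := inj a p ha hpa
  have hqi := inj b q hb hqb
  obtain ⟨N, hN⟩ := (Set.finite_range p).bddAbove
  have hN' : ∀ x, p x ≤ N := fun x => hN ⟨x, rfl⟩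
  have cI := c_I (q := q) hp hN'
  have cA := c_A (q := q) hp hN'
  have cB := c_B (q := q) hp hN'
  refine ⟨V X, ofl (Ad X p q N), vR X, vI X, ?_, ?_, ?_, ?_, ?_, ?_, ?_, ?_⟩
  · rw [Nat.card_sum, Nat.card_sum, Nat.card_sum, Nat.card_unique]
    ring
  · rw [rl_ofl]
    exact ad_interval'
  · rw [rl_ofl]
    exact ad_split hp hpi hqi
  · intro x y hxy
    simpa using hxy
  · intro x
    rw [rl_ofl, cI]
    exact ⟨fun ⟨y, hy⟩ => ⟨y, hy.symm⟩, fun ⟨y, hy⟩ => ⟨y, hy.symm⟩⟩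
  · intro x y
    rw [hab, hpa, hqb]
    have h1 := nle_iff (P := Ad X p q N) (D := isA (Ad X p q N) (vR X)) (d := vA X) (e := vI X)
      (f := p) cA (fun x y => ad_AI x y) y x
    have h2 := nle_iff (P := Ad X p q N) (D := isB (Ad X p q N) (vR X)) (d := vB X) (e := vI X)
      (f := q) cB (fun x y => ad_BI hp x y) y x
    unfold dpo olt
    rw [rl_ofl, h1, h2, not_le, not_le]
  · rw [rl_ofl]
    exact chain_of hpi cA cI (fun x y => ad_AI x y)
  · rw [rl_ofl]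
    exact chain_of hqi cB cI (fun x y => ad_BI hp x y)

end Pool.Agent.TH195.SG
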