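import Pool.Agent.TH195.SG.Dec

set_option autoImplicit false

/-! First-order definability of the decoding. -/

namespace Pool.Agent.TH195.SG

open FirstOrder FirstOrder.Language Pool.Agent.TH686.SP

variable {α : Type}

theorem fd_isB (p x : α) : FD (fun M S v => isB (rl M S) (v p) (v x)) :=
  (FD.eq x p).not.and (fd_lt x p).not

theorem fd_exB (p x : α) : FD (fun M S v => ∃ b, isB (rl M S) (v p) b ∧ rl M S b (v x)) :=
  FD.ex1 (P := fun M S v b => isB (rl M S) (v p) b ∧ rl M S b (v x))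
    ((fd_isB (Sum.inl p) (Sum.inr ())).and (fd_lt (Sum.inr ()) (Sum.inl x)))

theorem fd_isI (p x : α) : FD (fun M S v => isI (rl M S) (v p) (v x)) :=
  (FD.eq x p).not.and ((fd_lt x p).and (fd_exB p x))

theorem fd_isA (p x : α) : FD (fun M S v => isA (rl M S) (v p) (v x)) :=
  (FD.eq x p).not.and ((fd_lt x p).and (fd_exB p x).not)

/-- a family of sets with one parameter -/
abbrev Fam : Type 1 := ∀ M : Type, LP.Structure M → M → M → Prop

/-- definable families -/
def FF (D : Fam) : Prop := ∀ {β : Type} (p x : β), FD (fun M S v => D M S (v p) (v x))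

variable {D : Fam}

theorem fd_nle (hD : FF D) (p x y : α) :
    FD (fun M S v => nle (rl M S) (D M S (v p)) (v x) (v y)) :=
  FD.all1 (P := fun M S v a => D M S (v p) a → rl M S a (v x) → rl M S a (v y))
    ((hD (Sum.inl p) (Sum.inr ())).imp ((fd_lt (Sum.inr ()) (Sum.inl x)).imp
      (fd_lt (Sum.inr ()) (Sum.inl y))))

theorem fd_own (hD : FF D) (p a x : α) :
    FD (fun M S v => own (rl M S) (v p) (D M S (v p)) (v a) (v x)) :=
  (fd_lt a x).and (FD.all1 (P := fun M S v y => isI (rl M S) (v p) y → rl M S (v a) y →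
      nle (rl M S) (D M S (v p)) (v x) y)
    ((fd_isI (Sum.inl p) (Sum.inr ())).imp ((fd_lt (Sum.inl a) (Sum.inr ())).imp
      (fd_nle hD (Sum.inl p) (Sum.inl x) (Sum.inr ())))))

theorem fd_chain (hD : FF D) (p : α) :
    FD (fun M S v => Chain (rl M S) (v p) (D M S (v p))) := by
  have h1 : FD (fun M S (v : α → M) => ∀ x y, isI (rl M S) (v p) x → isI (rl M S) (v p) y →
      nle (rl M S) (D M S (v p)) x y ∨ nle (rl M S) (D M S (v p)) y x) :=
    FD.all1 (P := fun M S v x => ∀ y, isI (rl M S) (v p) x → isI (rl M S) (v p) y →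
      nle (rl M S) (D M S (v p)) x y ∨ nle (rl M S) (D M S (v p)) y x) <|
    FD.all1 (P := fun M S v y => isI (rl M S) (v (Sum.inl p)) (v (Sum.inr ())) →
      isI (rl M S) (v (Sum.inl p)) y →
      nle (rl M S) (D M S (v (Sum.inl p))) (v (Sum.inr ())) y ∨
        nle (rl M S) (D M S (v (Sum.inl p))) y (v (Sum.inr ()))) <|
    (fd_isI (Sum.inl (Sum.inl p)) (Sum.inl (Sum.inr ()))).imp
      ((fd_isI (Sum.inl (Sum.inl p)) (Sum.inr ())).imp
        ((fd_nle hD (Sum.inl (Sum.inl p)) (Sum.inl (Sum.inr ())) (Sum.inr ())).or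
          (fd_nle hD (Sum.inl (Sum.inl p)) (Sum.inr ()) (Sum.inl (Sum.inr ())))))
  have h2 : FD (fun M S (v : α → M) => ∀ x y, isI (rl M S) (v p) x → isI (rl M S) (v p) y →
      nle (rl M S) (D M S (v p)) x y → nle (rl M S) (D M S (v p)) y x → x = y) :=
    FD.all1 (P := fun M S v x => ∀ y, isI (rl M S) (v p) x → isI (rl M S) (v p) y →
      nle (rl M S) (D M S (v p)) x y → nle (rl M S) (D M S (v p)) y x → x = y) <|
    FD.all1 (P := fun M S v y => isI (rl M S) (v (Sum.inl p)) (v (Sum.inr ())) →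
      isI (rl M S) (v (Sum.inl p)) y →
      nle (rl M S) (D M S (v (Sum.inl p))) (v (Sum.inr ())) y →
        nle (rl M S) (D M S (v (Sum.inl p))) y (v (Sum.inr ())) → v (Sum.inr ()) = y) <|
    (fd_isI (Sum.inl (Sum.inl p)) (Sum.inl (Sum.inr ()))).imp
      ((fd_isI (Sum.inl (Sum.inl p)) (Sum.inr ())).imp
        ((fd_nle hD (Sum.inl (Sum.inl p)) (Sum.inl (Sum.inr ())) (Sum.inr ())).imp
          ((fd_nle hD (Sum.inl (Sum.inl p)) (Sum.inr ()) (Sum.inl (Sum.inr ()))).imp
            (FD.eq _ _))))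
  have h3 : FD (fun M S (v : α → M) => ∀ a, D M S (v p) a → ∃ x, isI (rl M S) (v p) x ∧
      own (rl M S) (v p) (D M S (v p)) a x) :=
    FD.all1 (P := fun M S v a => D M S (v p) a → ∃ x, isI (rl M S) (v p) x ∧
      own (rl M S) (v p) (D M S (v p)) a x) <|
    (hD (Sum.inl p) (Sum.inr ())).imp
      (FD.ex1 (P := fun M S v x => isI (rl M S) (v (Sum.inl p)) x ∧
        own (rl M S) (v (Sum.inl p)) (D M S (v (Sum.inl p))) (v (Sum.inr ())) x)
        ((fd_isI (Sum.inl (Sum.inl p)) (Sum.inr ())).and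
          (fd_own hD (Sum.inl (Sum.inl p)) (Sum.inl (Sum.inr ())) (Sum.inr ()))))
  have h4 : FD (fun M S (v : α → M) => ∀ x, isI (rl M S) (v p) x → ∃! a, D M S (v p) a ∧
      own (rl M S) (v p) (D M S (v p)) a x) :=
    FD.all1 (P := fun M S v x => isI (rl M S) (v p) x → ∃! a, D M S (v p) a ∧
      own (rl M S) (v p) (D M S (v p)) a x) <|
    (fd_isI (Sum.inl p) (Sum.inr ())).imp
      (fd_eu (P := fun M S v a => D M S (v (Sum.inl p)) a ∧
        own (rl M S) (v (Sum.inl p)) (D M S (v (Sum.inl p))) a (v (Sum.inr ())))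
        ((hD (Sum.inl (Sum.inl p)) (Sum.inr ())).and
          (fd_own hD (Sum.inl (Sum.inl p)) (Sum.inr ()) (Sum.inl (Sum.inr ())))))
  refine (h1.and (h2.and (h3.and h4))).congr fun M S v => ?_
  exact ⟨fun h => ⟨h.1, h.2.1, h.2.2.1, h.2.2.2⟩, fun h => ⟨h.tot, h.anti, h.ex, h.own⟩⟩

/-- the two families -/
abbrev DA : Fam := fun M S r => isA (rl M S) r

/-- the two families -/
abbrev DB : Fam := fun M S r => isB (rl M S) r

theorem fd_shape (p : α) : FD (fun M S v => Shape (rl M S) (v p)) :=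
  (fd_chain (D := DA) (fun p x => fd_isA p x) p).and
    (fd_chain (D := DB) (fun p x => fd_isB p x) p)

/-- the decoded partial order -/
def dpo (M : Type) (T : LP.Structure M) (r x y : M) : Prop :=
  olt (rl M T) (isA (rl M T) r) x y ∧ olt (rl M T) (isB (rl M T) r) x y

theorem fd_dpo (p x y : α) : FD (fun M S v => dpo M S (v p) (v x) (v y)) :=
  (fd_nle (D := DA) (fun p x => fd_isA p x) p y x).not.and
    (fd_nle (D := DB) (fun p x => fd_isB p x) p y x).not

/-- the interpreted relation -/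
def rgo {M : Type} (T : LP.Structure M) (r : M) : {m : ℕ} → LP.Relations m → (Fin m → M) → Prop
  | _, RP.lt, u => dpo M T r (u 0) (u 1)

/-- the interpretation -/
def IG : Itp LP LP Unit 1 Unit where
  dom _ M T p w := isI (rl M T) (p ()) (w 0)
  eqv _ _ _ _ _ w w' := w 0 = w' 0
  rel R _ _ T p ws := rgo T (p ()) R (fun i => ws i 0)
  fn f _ _ _ _ _ _ _ := nomatch f
  fd_dom _ _ p w := fd_isI (p ()) (w 0)
  fd_eqv _ _ _ _ w w' := FD.eq (w 0) (w' 0)
  fd_rel {m} R _ {α} p ws := by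
    cases R
    exact fd_dpo (p ()) (ws 0 0) (ws 1 0)
  fd_fn f _ _ _ _ _ _ := nomatch f

/-- the structure on the coded elements -/
def dst (M : Type) (T : LP.Structure M) (r : M) : LP.Structure {x // isI (rl M T) r x} :=
  ofl fun x y => dpo M T r x.1 y.1

theorem rep_IG (M : Type) (T : LP.Structure M) (r : M) (X : Type) (T0 : LP.Structure X)
    (e : X → M) (he : Function.Injective e) (hI : ∀ x, isI (rl M T) r x ↔ ∃ y, e y = x)
    (hr : ∀ x y, rl X T0 x y ↔ dpo M T r (e x) (e y)) :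
    Rep IG X T0 M T (fun _ => r) (fun _ w x => w 0 = e x) := by
  refine ⟨fun x => ⟨(), fun _ => e x, rfl⟩, fun c w => ?_, ?_, ?_, ?_⟩
  · show isI (rl M T) r (w 0) ↔ _
    rw [hI]
    exact ⟨fun ⟨y, hy⟩ => ⟨y, hy.symm⟩, fun ⟨y, hy⟩ => ⟨y, hy.symm⟩⟩
  · intro c c' w w' x x' h1 h2
    show w 0 = w' 0 ↔ _
    rw [h1, h2]
    exact he.eq_iff
  · intro m R cs ws xs h1
    have e1 : (fun i => ws i 0) = fun i => e (xs i) := funext h1
    show rgo T r R (fun i => ws i 0) ↔ _
    rw [e1]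
    cases R
    have := hr (xs 0) (xs 1)
    refine (this.symm).trans ?_
    have e2 : ![xs 0, xs 1] = xs := by
      funext t
      fin_cases t <;> rfl
    show @Structure.RelMap LP X T0 2 RP.lt ![xs 0, xs 1] ↔ _
    rw [e2]
  · intro m f
    exact nomatch f

/-- **Decoding.** For every sentence about partial orders there is a sentence about graphs such
that: -/
theorem dec (φ : LP.Sentence) : ∃ χ : LP.Sentence,
    (∀ (M : Type) (T : LP.Structure M), Finite M → @Sentence.Realize LP M T χ →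
      ∃ (X : Type) (T0 : LP.Structure X), Nat.card M = 3 * Nat.card X + 1 ∧
        Dim2 (rl X T0) ∧ @Sentence.Realize LP X T0 φ) ∧
    (∀ (M : Type) (T : LP.Structure M) (r : M) (X : Type) (T0 : LP.Structure X) (e : X → M),
      Function.Injective e → (∀ x, isI (rl M T) r x ↔ ∃ y, e y = x) →
      (∀ x y, rl X T0 x y ↔ dpo M T r (e x) (e y)) → Shape (rl M T) r →
      @Sentence.Realize LP X T0 φ → @Sentence.Realize LP M T χ) := by
  obtain ⟨Q, hQ1, hQ2⟩ := sent_tr IG φ
  obtain ⟨χ, hχ⟩ := FD.sent (L := LP) (P := fun M S => ∃ r, Shape (rl M S) r ∧ Q M S (fun _ => r))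
    (FD.ex1 (P := fun M S _ r => Shape (rl M S) r ∧ Q M S (fun _ => r))
      ((fd_shape (Sum.inr ())).and (hQ1 (α := Empty ⊕ Unit) (fun _ => Sum.inr ()))))
  refine ⟨χ, ?_, ?_⟩
  · intro M T hM h
    obtain ⟨r, hs, hq⟩ := (hχ M T).1 h
    refine ⟨{x // isI (rl M T) r x}, dst M T r, card_shape hs,
      ⟨_, _, sto hs.1, sto hs.2, fun x y => Iff.rfl⟩, ?_⟩
    exact (hQ2 _ (dst M T r) M T _ _ (rep_IG M T r _ (dst M T r) Subtype.val
      Subtype.val_injective (fun x => ⟨fun hx => ⟨⟨x, hx⟩, rfl⟩, fun ⟨y, hy⟩ => hy ▸ y.2⟩)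
      (fun x y => Iff.rfl))).1 hq
  · intro M T r X T0 e he hI hr hs hφ
    exact (hχ M T).2 ⟨r, hs, (hQ2 X T0 M T _ _ (rep_IG M T r X T0 e he hI hr)).2 hφ⟩

end Pool.Agent.TH195.SG
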