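import Pool.Agent.TH195.SG.Spec

set_option autoImplicit false

/-! The reductions to split interval graphs. -/

namespace Pool.Agent.TH195.SG

open FirstOrder FirstOrder.Language Pool.Agent.TH686.SP

/-- the class of split interval graphs -/
def SI (M : Type) (r : M → M → Prop) : Prop := IsIntervalGraph r ∧ IsSplitGraph r

theorem si_eq (φ : LP.Sentence) : ∃ χ : LQ.Sentence, specC SI φ = spec χ := by
  obtain ⟨χ, h⟩ := si_spec φ
  refine ⟨χ, ?_⟩
  ext n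
  exact and_congr_right fun hn => (h n hn).symm

theorem asser_of_class (C : ∀ M : Type, (M → M → Prop) → Prop)
    (hC : ∀ (M : Type) (r : M → M → Prop), Finite M → IsIntervalGraph r → IsSplitGraph r → C M r)
    (h : ∀ φ : LP.Sentence, ∃ (L' : FirstOrder.Language.{0, 0}) (χ : L'.Sentence),
      ∀ n : ℕ, n ∈ spec χ ↔ (0 < n ∧ n ∉ specC C φ)) :
    ∀ (L : FirstOrder.Language.{0, 0}) (φ : L.Sentence),
      ∃ (L' : FirstOrder.Language.{0, 0}) (χ : L'.Sentence),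
        ∀ n : ℕ, n ∈ spec χ ↔ (0 < n ∧ n ∉ spec φ) := by
  refine asser_main.2 fun φ => ?_
  obtain ⟨ψ, hψ⟩ := code_C φ
  obtain ⟨L1, χ1, h1⟩ := h ψ
  obtain ⟨L2, χ2, h2⟩ := inv3 χ1
  refine ⟨L2, χ2, fun n => ?_⟩
  constructor
  · rintro ⟨hn, h3⟩
    refine ⟨hn, fun h4 => ?_⟩
    exact ((h1 (3 * n + 1)).1 ⟨by omega, (h2 n hn).1 h3⟩).2 ((hψ C hC n hn).1 h4)
  · rintro ⟨hn, h3⟩
    refine ⟨hn, (h2 n hn).2 ((h1 (3 * n + 1)).2 ⟨by omega, fun h4 => ?_⟩).2⟩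
    exact h3 ((hψ C hC n hn).2 h4)

theorem asser_si :
    (∀ (L : FirstOrder.Language.{0, 0}) (φ : L.Sentence),
      ∃ (L' : FirstOrder.Language.{0, 0}) (χ : L'.Sentence),
        ∀ n : ℕ, n ∈ spec χ ↔ (0 < n ∧ n ∉ spec φ)) ↔
    (∀ φ : LP.Sentence,
      ∃ (L' : FirstOrder.Language.{0, 0}) (χ : L'.Sentence),
        ∀ n : ℕ, n ∈ spec χ ↔ (0 < n ∧ n ∉ specC SI φ)) := by
  refine ⟨fun h φ => ?_, asser_of_class SI fun M r _ h1 h2 => ⟨h1, h2⟩⟩
  obtain ⟨χ, hχ⟩ := si_eq φ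
  rw [hχ]
  exact h LQ χ

theorem rud_of_class (C : ∀ M : Type, (M → M → Prop) → Prop)
    (hC : ∀ (M : Type) (r : M → M → Prop), Finite M → IsIntervalGraph r → IsSplitGraph r → C M r)
    (h : ∀ φ : LP.Sentence, Rud (specC C φ)) :
    ∀ (L : FirstOrder.Language.{0, 0}) (φ : L.Sentence), Rud (spec φ) := by
  refine rud_main.2 fun φ => ?_
  obtain ⟨ψ, hψ⟩ := code_C φ
  have e : spec2 φ = {n | 0 < n} ∩ {n | MvPolynomial.eval (fun _ => n)
      (MvPolynomial.C 3 * MvPolynomial.X 0 + MvPolynomial.C 1 : MvPolynomial (Fin 1) ℕ) ∈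
        specC C ψ} := by
    ext n
    have e1 : MvPolynomial.eval (fun _ => n)
      (MvPolynomial.C 3 * MvPolynomial.X 0 + MvPolynomial.C 1 : MvPolynomial (Fin 1) ℕ) =
        3 * n + 1 := by
      simp only [map_add, map_mul, MvPolynomial.eval_C, MvPolynomial.eval_X]
    rw [Set.mem_inter_iff, Set.mem_ofPred_eq, Set.mem_ofPred_eq, e1]
    exact ⟨fun h1 => ⟨h1.1, (hψ C hC n h1.1).1 h1⟩, fun h1 => (hψ C hC n h1.1).2 h1.2⟩
  rw [e]
  exact Rud.pos.inter ((h ψ).poly _)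

theorem rud_si : (∀ (L : FirstOrder.Language.{0, 0}) (φ : L.Sentence), Rud (spec φ)) ↔
    ∀ φ : LP.Sentence, Rud (specC SI φ) := by
  refine ⟨fun h φ => ?_, rud_of_class SI fun M r _ h1 h2 => ⟨h1, h2⟩⟩
  obtain ⟨χ, hχ⟩ := si_eq φ
  rw [hχ]
  exact h LQ χ

/-- rudimentary sets with inequalities as the atomic formulas -/
def RudLe (A : Set ℕ) : Prop :=
  ∀ R : (k : ℕ) → Set (Set (Fin k → ℕ)),
    (∀ (k : ℕ) (p q : MvPolynomial (Fin k) ℕ),
      {v : Fin k → ℕ | MvPolynomial.eval v p ≤ MvPolynomial.eval v q} ∈ R k) →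
    (∀ (k : ℕ) (P : Set (Fin k → ℕ)), P ∈ R k → Pᶜ ∈ R k) →
    (∀ (k : ℕ) (P Q : Set (Fin k → ℕ)), P ∈ R k → Q ∈ R k → P ∩ Q ∈ R k) →
    (∀ (k : ℕ) (p : MvPolynomial (Fin k) ℕ) (P : Set (Fin (k + 1) → ℕ)),
      P ∈ R (k + 1) →
      {v : Fin k → ℕ | ∃ y : ℕ, y ≤ MvPolynomial.eval v p ∧
          (Fin.cons y v : Fin (k + 1) → ℕ) ∈ P} ∈ R k) →
    {v : Fin 1 → ℕ | v 0 ∈ A} ∈ R 1

theorem rudLe_iff (A : Set ℕ) : RudLe A ↔ Rud A := by
  constructor
  · intro h D h1 h2 h3 h4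
    refine h D (fun k p q => ?_) h2 h3 h4
    have h5 := h4 k q _ (h1 (k + 1)
      (MvPolynomial.rename Fin.succ p + MvPolynomial.X 0) (MvPolynomial.rename Fin.succ q))
    have e : {v : Fin k → ℕ | MvPolynomial.eval v p ≤ MvPolynomial.eval v q} =
        {v : Fin k → ℕ | ∃ x : ℕ, x ≤ MvPolynomial.eval v q ∧
          (Fin.cons x v : Fin (k + 1) → ℕ) ∈ {v : Fin (k + 1) → ℕ |
            MvPolynomial.eval v (MvPolynomial.rename Fin.succ p + MvPolynomial.X 0) =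
            MvPolynomial.eval v (MvPolynomial.rename Fin.succ q)}} := by
      ext v
      simp only [Set.mem_ofPred_eq, map_add, MvPolynomial.eval_rename, MvPolynomial.eval_X,
        Fin.cons_zero]
      have e2 : ∀ x : ℕ, ((Fin.cons x v : Fin (k + 1) → ℕ) ∘ Fin.succ) = v := by
        intro x
        funext i
        rfl
      simp only [e2]
      constructor
      · intro h
        exact ⟨MvPolynomial.eval v q - MvPolynomial.eval v p, Nat.sub_le _ _, by omega⟩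
      · rintro ⟨x, -, h⟩
        omega
    rw [e]
    exact h5
  · intro h R h1 h2 h3 h4
    refine h R (fun k p q => ?_) h2 h3 h4
    have e : {v : Fin k → ℕ | MvPolynomial.eval v p = MvPolynomial.eval v q} =
        {v : Fin k → ℕ | MvPolynomial.eval v p ≤ MvPolynomial.eval v q} ∩
        {v : Fin k → ℕ | MvPolynomial.eval v q ≤ MvPolynomial.eval v p} := by
      ext v
      exact le_antisymm_iff
    rw [e]
    exact h3 k _ _ (h1 k p q) (h1 k q p)

end Pool.Agent.TH195.SG
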