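import Pool.Agent.TH195.SG.Enc

set_option autoImplicit false

/-! Spectra over split interval graphs. -/

namespace Pool.Agent.TH195.SG

open FirstOrder FirstOrder.Language Pool.Agent.TH686.SP

/-- finite interval graphs by orders of the vertices -/
theorem interval_iff {M : Type} [Finite M] (r : M → M → Prop) :
    IsIntervalGraph r ↔ ((∀ x, ¬ r x x) ∧ (∀ x y, r x y → r y x) ∧
      ∃ o : M → M → Prop, IsStrictTotalOrder M o ∧
        ∀ x y z, o x y → o y z → r x z → r x y) := by
  classical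
  constructor
  · rintro ⟨l, u, hlu, hr⟩
    refine ⟨fun x h => ((hr x x).1 h).1 rfl, fun x y h => ?_, ?_⟩
    · obtain ⟨h1, h2, h3⟩ := (hr x y).1 h
      exact (hr y x).2 ⟨h1.symm, h3, h2⟩
    · let i := Finite.equivFin M
      refine ⟨fun x y => l x < l y ∨ (l x = l y ∧ i x < i y), ?_, ?_⟩
      · refine { trichotomous := ?_, irrefl := ?_, trans := ?_ }
        · intro x y h1 h2
          push Not at h1 h2
          have e : l x = l y := le_antisymm h2.1 h1.1
          exact i.injective (le_antisymm (h2.2 e.symm) (h1.2 e))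
        · rintro x (h | h)
          · exact lt_irrefl _ h
          · exact lt_irrefl _ h.2
        · rintro x y z (h | h) (h' | h')
          · exact Or.inl (h.trans h')
          · exact Or.inl (h'.1 ▸ h)
          · exact Or.inl (h.1 ▸ h')
          · exact Or.inr ⟨h.1.trans h'.1, h.2.trans h'.2⟩
      · intro x y z hxy hyz hxz
        have h1 : l x ≤ l y := hxy.elim le_of_lt (fun h => h.1.le)
        have h2 : l y ≤ l z := hyz.elim le_of_lt (fun h => h.1.le)
        refine (hr x y).2 ⟨?_, h1.trans (hlu y), h2.trans ((hr x z).1 hxz).2.2⟩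
        rintro rfl
        rcases hxy with h | h
        · exact lt_irrefl _ h
        · exact lt_irrefl _ h.2
  · rintro ⟨hi, hs, o, ho, hu⟩
    have := Fintype.ofFinite M
    obtain ⟨f, hf, hof⟩ := exists_rank o ho
    let g : M → M → ℕ := fun x z => if z = x ∨ (o x z ∧ r x z) then f z else 0
    let u : M → ℕ := fun x => Finset.univ.sup (g x)
    have hgu : ∀ x z, g x z ≤ u x := fun x z => Finset.le_sup (f := g x) (Finset.mem_univ z)
    have h0 : ∀ x, f x ≤ u x := by
      intro x
      have := hgu x x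
      simpa [g] using this
    have key1 : ∀ x y, o x y → (f y ≤ u x ↔ r x y) := by
      intro x y hxy
      constructor
      · intro h
        have h1 : f y - 1 < u x := by
          have := hf y
          omega
        obtain ⟨z, -, hz⟩ := Finset.lt_sup_iff.1 h1
        have hy := hf y
        have hxy' := (hof x y).1 hxy
        by_cases hc : z = x ∨ (o x z ∧ r x z)
        · have e : g x z = f z := if_pos hc
          rw [e] at hz
          rcases hc with rfl | ⟨h2, h3⟩
          · omega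
          · by_cases h4 : o y z
            · exact hu x y z hxy h4 h3
            · by_cases h5 : o z y
              · have := (hof z y).1 h5
                omega
              · rw [ho.trichotomous y z h4 h5]
                exact h3
        · have e : g x z = 0 := if_neg hc
          rw [e] at hz
          omega
      · intro h
        have e : g x y = f y := if_pos (Or.inr ⟨hxy, h⟩)
        rw [← e]
        exact hgu x y
    refine ⟨fun x => f x, fun x => u x, fun x => Nat.cast_le.2 (h0 x), fun x y => ?_⟩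
    rw [Nat.cast_le, Nat.cast_le]
    by_cases hxy : o x y
    · have h1 := (hof x y).1 hxy
      have h2 := h0 y
      constructor
      · intro h
        refine ⟨?_, by omega, (key1 x y hxy).2 h⟩
        rintro rfl
        exact hi x h
      · rintro ⟨-, -, h⟩
        exact (key1 x y hxy).1 h
    · by_cases hyx : o y x
      · have h1 := (hof y x).1 hyx
        have h2 := h0 x
        constructor
        · intro h
          refine ⟨?_, (key1 y x hyx).2 (hs _ _ h), by omega⟩
          rintro rfl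
          exact hi x h
        · rintro ⟨-, h, -⟩
          exact hs _ _ ((key1 y x hyx).1 h)
      · have e := ho.trichotomous x y hxy hyx
        subst e
        exact ⟨fun h => absurd h (hi x), fun h => absurd rfl h.1⟩

/-- the coded edge relation -/
def re (M : Type) (S : LQ.Structure M) (x y : M) : Prop := x ≠ y ∧ ra M S x y

/-- the relation of the graph -/
def rgr {M : Type} (S : LQ.Structure M) : {m : ℕ} → LP.Relations m → (Fin m → M) → Prop
  | _, RP.lt, u => re M S (u 0) (u 1)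

/-- the graph as an interpretation -/
def IE : Itp LP LQ Unit 1 Empty where
  dom _ _ _ _ _ := True
  eqv _ _ _ _ _ w w' := w 0 = w' 0
  rel R _ _ T _ ws := rgr T R (fun i => ws i 0)
  fn f _ _ _ _ _ _ _ := nomatch f
  fd_dom _ _ _ _ := FD.const True
  fd_eqv _ _ _ _ w w' := FD.eq (w 0) (w' 0)
  fd_rel {m} R _ {α} p ws := by
    cases R
    exact (FD.eq (ws 0 0) (ws 1 0)).not.and (fd_ra (ws 0 0) (ws 1 0))
  fd_fn f _ _ _ _ _ _ := nomatch f

/-- the axioms -/
def Ax (M : Type) (S : LQ.Structure M) : Prop :=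
  (∀ x y, ra M S x y → ra M S y x) ∧
  (∀ x y z, rb M S x y → rb M S y z → ra M S x z → ra M S x y) ∧
  (∀ x y, ra M S x x → ra M S y y → ra M S x y) ∧
  (∀ x y, ¬ ra M S x x → ¬ ra M S y y → ¬ ra M S x y)

theorem fd_Ax {α : Type} : FD (fun M S (_ : α → M) => Ax M S) := by
  have h1 : FD (fun M S (_ : α → M) => ∀ x y, ra M S x y → ra M S y x) :=
    FD.all1 (P := fun M S v x => ∀ y, ra M S x y → ra M S y x) <|
    FD.all1 (P := fun M S v y => ra M S (v (Sum.inr ())) y → ra M S y (v (Sum.inr ()))) <|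
    (fd_ra (Sum.inl (Sum.inr ())) (Sum.inr ())).imp (fd_ra (Sum.inr ()) (Sum.inl (Sum.inr ())))
  have h2 : FD (fun M S (_ : α → M) => ∀ x y z, rb M S x y → rb M S y z → ra M S x z →
      ra M S x y) :=
    FD.all1 (P := fun M S v x => ∀ y z, rb M S x y → rb M S y z → ra M S x z → ra M S x y) <|
    FD.all1 (P := fun M S v y => ∀ z, rb M S (v (Sum.inr ())) y → rb M S y z →
      ra M S (v (Sum.inr ())) z → ra M S (v (Sum.inr ())) y) <|
    FD.all1 (P := fun M S v z => rb M S (v (Sum.inl (Sum.inr ()))) (v (Sum.inr ())) →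
      rb M S (v (Sum.inr ())) z → ra M S (v (Sum.inl (Sum.inr ()))) z →
      ra M S (v (Sum.inl (Sum.inr ()))) (v (Sum.inr ()))) <|
    (fd_rb (Sum.inl (Sum.inl (Sum.inr ()))) (Sum.inl (Sum.inr ()))).imp
      ((fd_rb (Sum.inl (Sum.inr ())) (Sum.inr ())).imp
        ((fd_ra (Sum.inl (Sum.inl (Sum.inr ()))) (Sum.inr ())).imp
          (fd_ra (Sum.inl (Sum.inl (Sum.inr ()))) (Sum.inl (Sum.inr ())))))
  have h3 : FD (fun M S (_ : α → M) => ∀ x y, ra M S x x → ra M S y y → ra M S x y) :=
    FD.all1 (P := fun M S v x => ∀ y, ra M S x x → ra M S y y → ra M S x y) <|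
    FD.all1 (P := fun M S v y => ra M S (v (Sum.inr ())) (v (Sum.inr ())) → ra M S y y →
      ra M S (v (Sum.inr ())) y) <|
    (fd_ra (Sum.inl (Sum.inr ())) (Sum.inl (Sum.inr ()))).imp
      ((fd_ra (Sum.inr ()) (Sum.inr ())).imp (fd_ra (Sum.inl (Sum.inr ())) (Sum.inr ())))
  have h4 : FD (fun M S (_ : α → M) => ∀ x y, ¬ ra M S x x → ¬ ra M S y y → ¬ ra M S x y) :=
    FD.all1 (P := fun M S v x => ∀ y, ¬ ra M S x x → ¬ ra M S y y → ¬ ra M S x y) <|
    FD.all1 (P := fun M S v y => ¬ ra M S (v (Sum.inr ())) (v (Sum.inr ())) → ¬ ra M S y y →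
      ¬ ra M S (v (Sum.inr ())) y) <|
    (fd_ra (Sum.inl (Sum.inr ())) (Sum.inl (Sum.inr ()))).not.imp
      ((fd_ra (Sum.inr ()) (Sum.inr ())).not.imp (fd_ra (Sum.inl (Sum.inr ())) (Sum.inr ())).not)
  exact h1.and (h2.and (h3.and h4))

/-- spectra over split interval graphs are spectra -/
theorem si_spec (ψ : LP.Sentence) : ∃ χ : LQ.Sentence, ∀ n : ℕ, 0 < n →
    ((∃ (M : Type) (S : LQ.Structure M), Nat.card M = n ∧ @Sentence.Realize LQ M S χ) ↔
      ∃ (M : Type) (S : LP.Structure M), Nat.card M = n ∧ (IsIntervalGraph (rl M S) ∧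
        IsSplitGraph (rl M S)) ∧ @Sentence.Realize LP M S ψ) := by
  obtain ⟨Q, hQ1, hQ2⟩ := sent_tr IE ψ
  obtain ⟨χ, hχ⟩ := FD.sent (L := LQ) (P := fun M S => IsStrictTotalOrder M (rb M S) ∧
      Ax M S ∧ Q M S (fun e => e.elim))
    ((fd_sto fd_rb).and (fd_Ax.and ((hQ1 (α := Empty) (fun e => e)).congr
      fun M S v => by rw [show (fun i => v i) = (fun e : Empty => (e.elim : M)) from
        Subsingleton.elim _ _])))
  have hrep : ∀ (M : Type) (S : LQ.Structure M) (S' : LP.Structure M),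
      (∀ x y, rl M S' x y ↔ re M S x y) →
      Rep IE M S' M S (fun e => e.elim) (fun _ w x => w 0 = x) := by
    intro M S S' h
    refine ⟨fun x => ⟨(), fun _ => x, rfl⟩, fun c w => ⟨fun _ => ⟨_, rfl⟩, fun _ => trivial⟩,
      ?_, ?_, ?_⟩
    · intro c c' w w' x x' h1 h2
      show w 0 = w' 0 ↔ _
      rw [h1, h2]
    · intro m R cs ws xs h1
      have e : (fun i => ws i 0) = xs := funext h1
      show rgr S R (fun i => ws i 0) ↔ _
      rw [e]
      cases R
      have := h (xs 0) (xs 1)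
      refine (this.symm).trans ?_
      have e2 : ![xs 0, xs 1] = xs := by
        funext t
        fin_cases t <;> rfl
      show @Structure.RelMap LP M S' 2 RP.lt ![xs 0, xs 1] ↔ _
      rw [e2]
    · intro m f
      exact nomatch f
  refine ⟨χ, fun n hn => ⟨?_, ?_⟩⟩
  · rintro ⟨M, S, hc, hr⟩
    have : Finite M := Nat.finite_of_card_ne_zero (by omega)
    obtain ⟨h1, ⟨a1, a2, a3, a4⟩, h3⟩ := (hχ M S).1 hr
    refine ⟨M, ofl (re M S), hc, ⟨?_, ?_⟩, ?_⟩
    · rw [rl_ofl, interval_iff]
      refine ⟨fun x h => h.1 rfl, fun x y h => ⟨h.1.symm, a1 _ _ h.2⟩, rb M S, h1, ?_⟩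
      intro x y z hxy hyz hxz
      refine ⟨?_, a2 x y z hxy hyz hxz.2⟩
      rintro rfl
      exact h1.irrefl _ hxy
    · rw [rl_ofl]
      exact ⟨fun x => ra M S x x, fun x y hx hy hxy => ⟨hxy, a3 x y hx hy⟩,
        fun x y hx hy h => a4 x y hx hy h.2⟩
    · exact (hQ2 M _ M S _ _ (hrep M S _ fun x y => Iff.rfl)).1 h3
  · rintro ⟨M, S, hc, ⟨hI, K, hK1, hK2⟩, hr⟩
    have : Finite M := Nat.finite_of_card_ne_zero (by omega)
    obtain ⟨b1, b2, o, ho, hu⟩ := (interval_iff _).1 hI
    let T : LQ.Structure M := of2 (fun x y => rl M S x y ∨ (x = y ∧ K x)) o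
    have hra : ∀ x y, ra M T x y ↔ (rl M S x y ∨ (x = y ∧ K x)) := fun x y => Iff.rfl
    have hrb : ∀ x y, rb M T x y ↔ o x y := fun x y => Iff.rfl
    have hd : ∀ x, ra M T x x ↔ K x := by
      intro x
      rw [hra]
      exact ⟨fun h => h.elim (fun h => absurd h (b1 x)) (fun h => h.2), fun h => Or.inr ⟨rfl, h⟩⟩
    have hre : ∀ x y, rl M S x y ↔ re M T x y := by
      intro x y
      constructor
      · intro h
        refine ⟨?_, Or.inl h⟩
        rintro rfl
        exact b1 x h
      · rintro ⟨h1, h2⟩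
        exact ((hra x y).1 h2).resolve_right fun h => h1 h.1
    refine ⟨M, T, hc, (hχ M T).2 ⟨ho, ⟨?_, ?_, ?_, ?_⟩, (hQ2 M S M T _ _ (hrep M T S hre)).2 hr⟩⟩
    · intro x y h
      rcases (hra x y).1 h with h | ⟨e, hk⟩
      · exact Or.inl (b2 _ _ h)
      · exact Or.inr ⟨e.symm, e ▸ hk⟩
    · intro x y z hxy hyz hxz
      rcases (hra x z).1 hxz with h | ⟨rfl, h⟩
      · exact Or.inl (hu x y z hxy hyz h)
      · exact absurd (ho.trans _ _ _ hxy hyz) (ho.irrefl x)
    · intro x y hx hy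
      by_cases e : x = y
      · subst e
        exact hx
      · exact Or.inl (hK1 x y ((hd x).1 hx) ((hd y).1 hy) e)
    · intro x y hx hy h
      rcases (hra x y).1 h with h | ⟨e, hk⟩
      · exact hK2 x y (fun h => hx ((hd x).2 h)) (fun h => hy ((hd y).2 h)) h
      · exact hx ((hd x).2 hk)

/-- the sorts for `3 n + 1` -/
def ar3 : Unit ⊕ Fin 3 → ℕ := Sum.elim (fun _ => 0) (fun _ => 1)

theorem card_Y3 (X : Type) [Finite X] : Nat.card (Y ar3 X) = 3 * Nat.card X + 1 := by
  have := Fintype.ofFinite X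
  rw [Nat.card_sigma, Fintype.sum_sum_type]
  simp only [ar3, Sum.elim_inl, Sum.elim_inr, Nat.card_fun, Nat.card_fin, pow_zero, pow_one,
    Finset.sum_const, Finset.card_univ, Fintype.card_fin, smul_eq_mul, Fintype.card_unit]
  ring

/-- inverse images under `3 n + 1` -/
theorem inv3 {L : FirstOrder.Language.{0, 0}} (τ : L.Sentence) :
    ∃ (L' : FirstOrder.Language.{0, 0}) (χ : L'.Sentence), ∀ n : ℕ, 0 < n →
      ((∃ (M : Type) (S : L'.Structure M), Nat.card M = n ∧ @Sentence.Realize L' M S χ) ↔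
        ∃ (M : Type) (S : L.Structure M), Nat.card M = 3 * n + 1 ∧
          @Sentence.Realize L M S τ) := by
  have hA : ∀ s, ar3 s ≤ 1 := by
    rintro (s | s)
    · exact Nat.zero_le _
    · exact le_rfl
  obtain ⟨Q, hQ1, hQ2⟩ := sent_tr (IY (L := L) hA (Sum.inl ())) τ
  obtain ⟨χ, hχ⟩ := FD.sent (L := LY L ar3) (P := fun M S => Q M S (fun e => e.elim))
    ((hQ1 (α := Empty) (fun e => e)).congr fun M S v => by
      rw [show (fun i => v i) = (fun e : Empty => (e.elim : M)) from Subsingleton.elim _ _])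
  refine ⟨LY L ar3, χ, fun n hn => ⟨?_, ?_⟩⟩
  · rintro ⟨X, T, hc, hr⟩
    have : Finite X := Nat.finite_of_card_ne_zero (by omega)
    obtain ⟨x0⟩ := (Nat.card_pos_iff.1 (show 0 < Nat.card X by omega)).1
    obtain ⟨T0, hT0⟩ := repY_down hA (Sum.inl ()) rfl x0 T (fun e => e.elim)
    refine ⟨_, T0, ?_, (hQ2 _ T0 X T _ _ hT0).1 ((hχ X T).1 hr)⟩
    rw [card_Y3, hc]
  · rintro ⟨M, S, hc, hr⟩
    have h1 : Nat.card M = Nat.card (Y ar3 (Fin n)) := by
      rw [card_Y3, hc, Nat.card_fin]
    have : Finite M := Nat.finite_of_card_ne_zero (by rw [hc]; omega)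
    have hne : Finite (Y ar3 (Fin n)) := inferInstance
    let e : M ≃ Y ar3 (Fin n) :=
      (Finite.equivFinOfCardEq h1).trans (Finite.equivFin _).symm
    let T0 : L.Structure (Y ar3 (Fin n)) := e.inducedStructure
    obtain ⟨T, hT⟩ := repY_up hA (Sum.inl ()) (⟨0, hn⟩ : Fin n) T0 (fun e => e.elim)
    refine ⟨Fin n, T, Nat.card_fin n, (hχ _ T).2 ((hQ2 _ T0 _ T _ _ hT).2 ?_)⟩
    exact (StrongHomClass.realize_sentence (e.inducedStructureEquiv (L := L)) τ).1 hr

/-- the spectrum over a class of graphs -/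
def specC (C : ∀ M : Type, (M → M → Prop) → Prop) (φ : LP.Sentence) : Set ℕ :=
  {n | 0 < n ∧ ∃ (M : Type) (S : LP.Structure M), Nat.card M = n ∧ C M (rl M S) ∧
    @Sentence.Realize LP M S φ}

/-- the coding theorem for classes which contain the split interval graphs -/
theorem code_C (φ : LP.Sentence) : ∃ χ : LP.Sentence,
    ∀ C : ∀ M : Type, (M → M → Prop) → Prop,
      (∀ (M : Type) (r : M → M → Prop), Finite M → IsIntervalGraph r → IsSplitGraph r → C M r) →
      ∀ n : ℕ, 0 < n → (n ∈ spec2 φ ↔ 3 * n + 1 ∈ specC C χ) := by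
  obtain ⟨χ, h1, h2⟩ := dec φ
  refine ⟨χ, fun C hC n hn => ⟨?_, ?_⟩⟩
  · rintro ⟨-, X, T0, hc, hd, hr⟩
    have : Finite X := Nat.finite_of_card_ne_zero (by omega)
    obtain ⟨M, T, r, e, hcM, hI, hS, he, e1, e2, e3⟩ := enc X T0 hd
    have hfM : Finite M := Nat.finite_of_card_ne_zero (by omega)
    exact ⟨by omega, M, T, by rw [hcM, hc], hC M _ hfM hI hS, h2 M T r X T0 e he e1 e2 e3 hr⟩
  · rintro ⟨-, M, T, hc, -, hr⟩
    have hfM : Finite M := Nat.finite_of_card_ne_zero (by omega)
    obtain ⟨X, T0, hcX, hd, hφ⟩ := h1 M T hfM hr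
    exact ⟨hn, X, T0, by omega, hd, hφ⟩

end Pool.Agent.TH195.SG
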